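import Mathlib
import Pool.Agent.LTFN.Final

open MeasureTheory

set_option autoImplicit false

namespace Pool.Agent.Results.MP_cfe56d_mp.FewFunctions

open Pool.Agent.LiebT2 in
/-- In all sufficiently high dimensions `d` the kinetic Lieb-Thirring inequality holds with the full
semiclassical constant, and even with the factor `1 + 10^(-9) N^(-2/d)`, for all orthonormal
families of `N ≤ (10^(-9) d / log d)^(d/2)` functions. -/
theorem result : ∃ d₀ : ℕ, ∀ d : ℕ, d₀ ≤ d → ∀ N : ℕ, 0 < N →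
    (N : ℝ) ≤ (1 / 10 ^ 9 * d / Real.log d) ^ ((d : ℝ) / 2) →
    ∀ u : Fin N → EuclideanSpace ℝ (Fin d) → ℂ,
    (∀ n, ContDiff ℝ 1 (u n) ∧ HasCompactSupport (u n)) →
    (∀ n m, ∫ x, star (u n x) * u m x = if n = m then (1 : ℂ) else 0) →
    (1 + 1 / 10 ^ 9 * (N : ℝ) ^ (-(2 / (d : ℝ)))) *
        ((d : ℝ) / ((d : ℝ) + 2) * (2 * Real.pi) ^ 2
            / ((MeasureTheory.volume (Metric.ball (0 : EuclideanSpace ℝ (Fin d)) 1)).toReal)
                ^ (2 / (d : ℝ))) *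
        (∫ x, (∑ n, ‖u n x‖ ^ 2) ^ (1 + 2 / (d : ℝ)))
      ≤ ∑ n, ∫ x, ∑ i : Fin d, ‖fderiv ℝ (u n) x (EuclideanSpace.single i (1 : ℝ))‖ ^ 2 := by
  obtain ⟨d₀, h⟩ := Pool.Agent.LTFN.ffinal
  refine ⟨max 1 d₀, fun d hd => ?_⟩
  rw [vol_ball d ((le_max_left _ _).trans hd)]
  exact h d ((le_max_right _ _).trans hd)

end Pool.Agent.Results.MP_cfe56d_mp.FewFunctions
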