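import Mathlib
import Pool.Agent.LTHD.Final

open MeasureTheory

set_option autoImplicit false

namespace Pool.Agent.Results.MP_cfe56d_mp.HighDimSharp

open Pool.Agent.LiebT2 in
/-- For every `ε ∈ (0,1)` the best constant in the kinetic Lieb-Thirring inequality is at least
`(1 - ε)^{1/d}` times the semiclassical constant in all sufficiently high dimensions `d`. The
definitions of the constants are those of the problem. -/
theorem result (ε : ℝ) (hε : 0 < ε) (hε1 : ε < 1) : ∃ d₀ : ℕ, ∀ d : ℕ, d₀ ≤ d →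
    (1 - ε) ^ (1 / (d : ℝ)) *
        ((d : ℝ) / ((d : ℝ) + 2) * (2 * Real.pi) ^ 2
            / ((MeasureTheory.volume (Metric.ball (0 : EuclideanSpace ℝ (Fin d)) 1)).toReal)
                ^ (2 / (d : ℝ)))
      ≤ sInf {K : ℝ | ∃ N : ℕ, ∃ u : Fin N → EuclideanSpace ℝ (Fin d) → ℂ,
          0 < N ∧
          (∀ n, ContDiff ℝ 1 (u n) ∧ HasCompactSupport (u n)) ∧
          (∀ n m, ∫ x, star (u n x) * u m x = if n = m then (1 : ℂ) else 0) ∧
          K = (∑ n, ∫ x, ∑ i : Fin d, ‖fderiv ℝ (u n) x (EuclideanSpace.single i (1 : ℝ))‖ ^ 2)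
              / ∫ x, (∑ n, ‖u n x‖ ^ 2) ^ (1 + 2 / (d : ℝ))} := by
  obtain ⟨d₀, h1, h⟩ := Pool.Agent.LTHD.setK_ge_hd hε hε1
  refine ⟨d₀, fun d hd => ?_⟩
  rw [vol_ball d (h1.trans hd)]
  exact le_csInf (setK_nonempty d) fun K hK => h d hd K hK

end Pool.Agent.Results.MP_cfe56d_mp.HighDimSharp
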